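import Pool.Agent.Q18.KZ.S1

/-! # KZ-CHL: the lower tail -/

set_option autoImplicit false

namespace Pool.Agent.Q124.KZ

open Finset Filter Topology MeasureTheory
open Pool.Agent.Q18.KZ

theorem exp_neg_le {u : ℝ} (h0 : 0 ≤ u) (h1 : u ≤ 1) : Real.exp (-u) ≤ 1 - 0.63 * u := by
  have h2 := convexOn_exp.2 (Set.mem_univ (0 : ℝ)) (Set.mem_univ (-1 : ℝ)) (by linarith : 0 ≤ 1 - u)
    h0 (by ring)
  simp only [smul_eq_mul, mul_zero, zero_add, Real.exp_zero, mul_one, mul_neg] at h2
  have h3 : Real.exp (-1) ≤ 0.37 := by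
    rw [Real.exp_neg, inv_le_comm₀ (Real.exp_pos 1) (by norm_num)]
    have := Real.exp_one_gt_d9
    norm_num at this ⊢
    linarith
  nlinarith [mul_le_mul_of_nonneg_left h3 h0]

theorem t_CHL : S_CHL := by
  classical
  intro ρ P hρ hP S a M hM ha
  obtain ⟨hprob, hint⟩ := hP
  set m : ℝ := ∑ p ∈ S, ρ p * a p with hm
  let φ : ℕ → Bool → ℝ := fun p b => if b = true then Real.exp (-(a p / M)) else 1
  let f : (ℕ → Bool) → ℝ := fun ω => ∏ p ∈ S, φ p (ω p)
  have hf : ∀ ω, f ω = Real.exp (-((∑ p ∈ S.filter (fun p => ω p = true), a p) / M)) := by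
    intro ω
    simp only [f, φ]
    rw [Finset.sum_filter, Finset.sum_div, ← Finset.sum_neg_distrib, Real.exp_sum]
    refine Finset.prod_congr rfl fun p _ => ?_
    split_ifs <;> simp
  have hm0 : 0 ≤ m := Finset.sum_nonneg fun p hp => mul_nonneg (hρ p).1 (ha p hp).1
  have hI : ∫ ω, f ω ∂P ≤ Real.exp (-(0.63 * (m / M))) := by
    have h1 : ∫ ω, f ω ∂P = ∏ p ∈ S, (ρ p * φ p true + (1 - ρ p) * φ p false) := hint S φ
    rw [h1]
    have h2 : ∀ p ∈ S, ρ p * φ p true + (1 - ρ p) * φ p false ≤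
        Real.exp (-(0.63 * (ρ p * a p / M))) := by
      intro p hp
      obtain ⟨h3, h4⟩ := ha p hp
      have h5 := exp_neg_le (u := a p / M) (by positivity) ((div_le_one hM).2 h4)
      have h6 := Real.add_one_le_exp (-(0.63 * (ρ p * a p / M)))
      simp only [φ, if_true, Bool.false_eq_true, if_false]
      have h7 : ρ p * a p / M = ρ p * (a p / M) := by ring
      rw [h7] at h6 ⊢
      nlinarith [mul_le_mul_of_nonneg_left h5 (hρ p).1]
    refine (Finset.prod_le_prod (fun p hp => ?_) h2).trans (le_of_eq ?_)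
    · simp only [φ, if_true, Bool.false_eq_true, if_false]
      have := (hρ p).1
      have := (hρ p).2
      have := Real.exp_pos (-(a p / M))
      have h8 := mul_nonneg (hρ p).1 this.le
      linarith
    · rw [← Real.exp_sum, Finset.sum_neg_distrib, ← Finset.mul_sum, ← Finset.sum_div, hm]
  have hmeas : Measurable f := by
    refine Finset.measurable_prod S fun p _ => ?_
    exact (measurable_from_top (f := φ p)).comp (measurable_pi_apply p)
  have hf0 : ∀ ω, 0 ≤ f ω := fun ω => by rw [hf]; positivity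
  have hf1 : ∀ ω, f ω ≤ 1 := by
    intro ω
    rw [hf]
    refine Real.exp_le_one_iff.2 ?_
    have : 0 ≤ (∑ p ∈ S.filter (fun p => ω p = true), a p) / M :=
      div_nonneg (Finset.sum_nonneg fun p hp => (ha p (Finset.mem_filter.1 hp).1).1) hM.le
    linarith
  have hfi : Integrable f P :=
    Integrable.of_bound hmeas.aestronglyMeasurable 1 (Filter.Eventually.of_forall fun ω => by
      rw [Real.norm_eq_abs, abs_of_nonneg (hf0 ω)]
      exact hf1 ω)
  have hmk := mul_meas_ge_le_integral_of_nonneg (μ := P) (f := f)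
    (Filter.Eventually.of_forall hf0) hfi (Real.exp (-(m / 2 / M)))
  have hsub : {ω : ℕ → Bool | ∑ p ∈ S.filter (fun p => ω p = true), a p < m / 2} ⊆
      {ω | Real.exp (-(m / 2 / M)) ≤ f ω} := by
    intro ω hω
    have h1 : ∑ p ∈ S.filter (fun p => ω p = true), a p < m / 2 := hω
    show _ ≤ f ω
    rw [hf]
    refine Real.exp_le_exp.2 (neg_le_neg ?_)
    exact div_le_div_of_nonneg_right h1.le hM.le
  have hreal : P.real {ω | Real.exp (-(m / 2 / M)) ≤ f ω} ≤ Real.exp (-(m / (8 * M))) := by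
    have h1 := hmk.trans hI
    have h2 : P.real {ω | Real.exp (-(m / 2 / M)) ≤ f ω} ≤
        Real.exp (-(0.63 * (m / M))) / Real.exp (-(m / 2 / M)) := by
      rw [le_div_iff₀ (Real.exp_pos _), mul_comm]
      exact h1
    refine h2.trans ?_
    rw [← Real.exp_sub]
    refine Real.exp_le_exp.2 ?_
    have h3 : m / 2 / M = (m / M) / 2 := by ring
    have h4 : m / (8 * M) = (m / M) / 8 := by
      rw [mul_comm, div_div]
    have h5 : 0 ≤ m / M := div_nonneg hm0 hM.le
    rw [h3, h4]
    linarith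
  refine (measure_mono hsub).trans ?_
  rw [← ENNReal.ofReal_toReal (measure_ne_top P {ω | Real.exp (-(m / 2 / M)) ≤ f ω})]
  exact ENNReal.ofReal_le_ofReal hreal

end Pool.Agent.Q124.KZ
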