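import Pool.Agent.Q18.KZ.S1

/-! # KZ-TB, KZ-TC: tails of the random sums -/

set_option autoImplicit false

namespace Pool.Agent.Q124.KZ

open Finset Filter Topology MeasureTheory
open Pool.Agent.Q18.KZ

/-- union bound -/
theorem union_small {Ω κ : Type} [MeasurableSpace Ω] (P : Measure Ω) (R : ℕ → Finset κ)
    (U : κ → Set Ω) (i0 : ℕ) (h0 : 10 ≤ i0) (hR : ∀ i, i0 ≤ i → (R i).card ≤ 2 ^ (4 * i))
    (hU : ∀ i, i0 ≤ i → ∀ r ∈ R i, P (U r) ≤ ENNReal.ofReal ((1 / 2 : ℝ) ^ (5 * i))) :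
    P {V | ∃ i, i0 ≤ i ∧ ∃ r ∈ R i, V ∈ U r} ≤ 1 / 20 := by
  let c : ℕ → ℝ := fun i => if i < 10 then 0 else (1 / 2 : ℝ) ^ i
  have hc0 : ∀ i, 0 ≤ c i := by
    intro i
    simp only [c]
    split_ifs <;> positivity
  have hsum2 : Summable fun n : ℕ => (1 / 2 : ℝ) ^ (n + 10) := by
    simp only [pow_add]
    exact summable_geometric_two.mul_right _
  have hce : ∀ n, c (n + 10) = (1 / 2 : ℝ) ^ (n + 10) := by
    intro n
    simp only [c]
    rw [if_neg (by omega)]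
  have hcs : Summable c := by
    rw [← summable_nat_add_iff 10]
    simpa only [hce] using hsum2
  have hct : ∑' i, c i = 2 * (1 / 2 : ℝ) ^ 10 := by
    rw [← hcs.sum_add_tsum_nat_add 10]
    have h1 : ∑ i ∈ Finset.range 10, c i = 0 := by
      refine Finset.sum_eq_zero fun i hi => ?_
      simp only [c]
      rw [if_pos (Finset.mem_range.1 hi)]
    have h2 : ∑' n, c (n + 10) = 2 * (1 / 2 : ℝ) ^ 10 := by
      simp only [hce, pow_add]
      rw [tsum_mul_right, tsum_geometric_two]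
    rw [h1, h2, zero_add]
  let W : ℕ → Set Ω := fun i => {V | i0 ≤ i ∧ ∃ r ∈ R i, V ∈ U r}
  have hW : ∀ i, P (W i) ≤ ENNReal.ofReal (c i) := by
    intro i
    by_cases hi : i0 ≤ i
    · have h1 : W i ⊆ ⋃ r ∈ R i, U r := by
        rintro V ⟨-, r, hr, hV⟩
        exact Set.mem_biUnion hr hV
      have h2 : P (W i) ≤ ∑ r ∈ R i, P (U r) := (measure_mono h1).trans (measure_biUnion_finset_le _ _)
      have h3 : ∑ r ∈ R i, P (U r) ≤ ∑ r ∈ R i, ENNReal.ofReal ((1 / 2 : ℝ) ^ (5 * i)) :=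
        Finset.sum_le_sum fun r hr => hU i hi r hr
      rw [Finset.sum_const, nsmul_eq_mul] at h3
      have h4 : ((R i).card : ENNReal) * ENNReal.ofReal ((1 / 2 : ℝ) ^ (5 * i)) =
          ENNReal.ofReal (((R i).card : ℝ) * (1 / 2 : ℝ) ^ (5 * i)) := by
        rw [ENNReal.ofReal_mul (by positivity), ENNReal.ofReal_natCast]
      rw [h4] at h3
      refine (h2.trans h3).trans (ENNReal.ofReal_le_ofReal ?_)
      simp only [c]
      rw [if_neg (by omega)]
      have h5 : ((R i).card : ℝ) ≤ 2 ^ (4 * i) := by exact_mod_cast hR i hi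
      have h6 : ((2 : ℝ) ^ (4 * i)) * (1 / 2 : ℝ) ^ (5 * i) = (1 / 2 : ℝ) ^ i := by
        have e1 : 5 * i = 4 * i + i := by ring
        rw [e1, pow_add, ← mul_assoc, ← mul_pow]
        norm_num
      rw [← h6]
      exact mul_le_mul_of_nonneg_right h5 (by positivity)
    · have h1 : W i = ∅ := by
        ext V
        simp only [W, Set.mem_setOf_eq, Set.mem_empty_iff_false, iff_false]
        rintro ⟨h, -⟩
        exact hi h
      rw [h1, measure_empty]
      exact zero_le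
  have h1 : {V | ∃ i, i0 ≤ i ∧ ∃ r ∈ R i, V ∈ U r} ⊆ ⋃ i, W i := by
    rintro V ⟨i, hi, hV⟩
    exact Set.mem_iUnion.2 ⟨i, hi, hV⟩
  calc P {V | ∃ i, i0 ≤ i ∧ ∃ r ∈ R i, V ∈ U r} ≤ P (⋃ i, W i) := measure_mono h1
    _ ≤ ∑' i, P (W i) := measure_iUnion_le _
    _ ≤ ∑' i, ENNReal.ofReal (c i) := ENNReal.tsum_le_tsum hW
    _ = ENNReal.ofReal (∑' i, c i) := (ENNReal.ofReal_tsum_of_nonneg hc0 hcs).symm
    _ = ENNReal.ofReal (2 * (1 / 2 : ℝ) ^ 10) := by rw [hct]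
    _ ≤ ENNReal.ofReal (1 / 20) := ENNReal.ofReal_le_ofReal (by norm_num)
    _ = 1 / 20 := by
      rw [ENNReal.ofReal_div_of_pos (by norm_num)]
      simp

theorem t_TB (h : S_MOM) : S_TB := by
  intro ε hε ρ P hρ hP ι κ R A c S t i0 h0 hR hr
  refine union_small P R (fun r => {V | t r < ZZ (A r) (c r) (S r) V}) i0 h0 hR ?_
  intro i hi r hri
  obtain ⟨ht, hc, hL⟩ := hr i hi r hri
  set k : ℕ := ⌈10 / ε⌉₊ with hk
  have hB : 0 ≤ (2 : ℝ) ^ (-(ε * i)) * t r := by positivity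
  have h1 := (h ρ P hρ hP ι (A r) (c r) (S r) k ((2 : ℝ) ^ (-(ε * i)) * t r) hc hB ?_).2 (t r) ht
  · refine h1.trans (ENNReal.ofReal_le_ofReal ?_)
    rw [mul_div_assoc, div_self ht.ne', mul_one, ← Real.rpow_natCast, ← Real.rpow_mul (by norm_num),
      one_div, ← Real.rpow_natCast, Real.inv_rpow (by norm_num), ← Real.rpow_neg (by norm_num)]
    refine Real.rpow_le_rpow_of_exponent_le (by norm_num) ?_
    have h2 : 10 / ε ≤ k := Nat.le_ceil _
    have h3 : 10 ≤ ε * k := by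
      rw [div_le_iff₀ hε] at h2
      linarith
    have h4 : (0 : ℝ) ≤ i := by positivity
    push_cast
    nlinarith [mul_le_mul_of_nonneg_right h3 h4]
  · rintro L ⟨T, hT, hTk, rfl⟩
    refine hL _ ⟨T, hT, ?_, rfl⟩
    have h2 := Nat.lt_ceil.1 hTk
    linarith

theorem t_TC (h : S_MOM) : S_TC := by
  intro ρ P hρ hP ι κ R A c S t i0 h0 hR hr
  refine union_small P R (fun r => {V | t r < ZZ (A r) (c r) (S r) V}) i0 h0 hR ?_
  intro i hi r hri
  obtain ⟨ht, hc, hL⟩ := hr i hi r hri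
  have h1 := (h ρ P hρ hP ι (A r) (c r) (S r) (5 * i) (t r / 2) hc (by positivity) hL).2 (t r) ht
  refine h1.trans (le_of_eq ?_)
  congr 2
  rw [div_div, mul_comm, ← div_div, div_self ht.ne']

end Pool.Agent.Q124.KZ
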